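import Pool.Agent.helper80.EN.Spec3

/-! Row LDS: local derived length. -/

set_option autoImplicit false

namespace Pool.Agent.helper80.EN

open Subgroup
open scoped commutatorElement

universe u

/-- `x` comes from the derived series of a finitely generated subgroup. -/
def LDS_Q {G : Type u} [Group G] (H : Subgroup G) (d : ℕ) (x : H) : Prop :=
  ∃ (K : Subgroup G) (hK : K ≤ H), K.FG ∧ x ∈ (derivedSeries K d).map (Subgroup.inclusion hK)

theorem LDS_mono {G : Type u} [Group G] (H : Subgroup G) (d : ℕ) (x : H) (K K' : Subgroup G)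
    (hK : K ≤ H) (hK' : K' ≤ H) (h : K ≤ K')
    (hx : x ∈ (derivedSeries K d).map (Subgroup.inclusion hK)) :
    x ∈ (derivedSeries K' d).map (Subgroup.inclusion hK') := by
  obtain ⟨k, hk, rfl⟩ := hx
  refine ⟨Subgroup.inclusion h k, ?_, ?_⟩
  · exact map_derivedSeries_le_derivedSeries (Subgroup.inclusion h) d ⟨k, hk, rfl⟩
  · apply Subtype.ext
    rfl

theorem LDS_two {G : Type u} [Group G] (H : Subgroup G) (d : ℕ) (x y : H)
    (hx : LDS_Q H d x) (hy : LDS_Q H d y) : ∃ (K : Subgroup G) (hK : K ≤ H), K.FG ∧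
      x ∈ (derivedSeries K d).map (Subgroup.inclusion hK) ∧
      y ∈ (derivedSeries K d).map (Subgroup.inclusion hK) := by
  obtain ⟨K₁, h₁, f₁, m₁⟩ := hx
  obtain ⟨K₂, h₂, f₂, m₂⟩ := hy
  exact ⟨K₁ ⊔ K₂, sup_le h₁ h₂, f₁.sup f₂, LDS_mono H d x K₁ _ h₁ _ le_sup_left m₁,
    LDS_mono H d y K₂ _ h₂ _ le_sup_right m₂⟩

theorem LDS_key {G : Type u} [Group G] (H : Subgroup G) (d : ℕ) :
    ∀ x : H, x ∈ derivedSeries H d → LDS_Q H d x := by
  induction d with
  | zero =>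
    intro x _
    refine ⟨Subgroup.zpowers (x : G), ?_, ?_, ?_⟩
    · rw [Subgroup.zpowers_le]; exact x.2
    · exact ⟨{(x : G)}, by simp [Subgroup.zpowers_eq_closure]⟩
    · exact ⟨⟨(x : G), Subgroup.mem_zpowers _⟩, Subgroup.mem_top _, Subtype.ext rfl⟩
  | succ d ih =>
    intro x hx
    rw [derivedSeries_succ, Subgroup.commutator_def] at hx
    induction hx using Subgroup.closure_induction with
    | mem x hx =>
      obtain ⟨g₁, h₁, g₂, h₂, rfl⟩ := hx
      obtain ⟨K, hK, hf, m₁, m₂⟩ := LDS_two H d g₁ g₂ (ih g₁ h₁) (ih g₂ h₂)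
      obtain ⟨k₁, e₁, rfl⟩ := m₁
      obtain ⟨k₂, e₂, rfl⟩ := m₂
      refine ⟨K, hK, hf, ⁅k₁, k₂⁆, ?_, ?_⟩
      · show ⁅k₁, k₂⁆ ∈ derivedSeries K (d + 1)
        rw [derivedSeries_succ]
        exact Subgroup.commutator_mem_commutator e₁ e₂
      · exact map_commutatorElement _ _ _
    | one =>
      exact ⟨⊥, bot_le, ⟨∅, by simp⟩, one_mem _⟩
    | mul x y _ _ hx hy =>
      obtain ⟨K, hK, hf, m₁, m₂⟩ := LDS_two H (d + 1) x y hx hy
      exact ⟨K, hK, hf, mul_mem m₁ m₂⟩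
    | inv x _ hx =>
      obtain ⟨K, hK, hf, m⟩ := hx
      exact ⟨K, hK, hf, inv_mem m⟩

theorem LDS : LDS_stmt.{u} := by
  intro G _ H d h
  rw [eq_bot_iff]
  intro x hx
  obtain ⟨K, hK, hf, m⟩ := LDS_key H d x hx
  rw [h K hf hK] at m
  simpa using m

end Pool.Agent.helper80.EN
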