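import Pool.Agent.helper80.EN.Spec2

/-!
# ET row TB: the path metric of a tree is a tree metric
-/

set_option autoImplicit false

namespace Pool.Agent.helper80.EN

universe u

variable {V : Type u} {Γ : SimpleGraph V}

/-- A vertex has only one neighbour closer to `z`. -/
theorem tb_parent28 (h : Γ.IsTree) {z v a b : V} (ha : Γ.Adj a v) (hb : Γ.Adj b v)
    (hda : Γ.dist z a < Γ.dist z v) (hdb : Γ.dist z b < Γ.dist z v) : a = b := by
  have key : ∀ c : V, Γ.Adj c v → Γ.dist z c < Γ.dist z v →
      ∃ p : Γ.Walk z v, p.IsPath ∧ p.penultimate = c := by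
    intro c hc hd
    obtain ⟨p, hp⟩ := h.connected.exists_walk_length_eq_dist z c
    refine ⟨p.concat hc, ?_, SimpleGraph.Walk.penultimate_concat p hc⟩
    apply SimpleGraph.Walk.isPath_of_length_eq_dist
    rw [SimpleGraph.Walk.length_concat, hp]
    have h1 := h.dist_eq_dist_add_one_of_adj z hc
    omega
  obtain ⟨p, hp, hpa⟩ := key a ha hda
  obtain ⟨q, hq, hqb⟩ := key b hb hdb
  have : (⟨p, hp⟩ : Γ.Path z v) = ⟨q, hq⟩ := (h.isAcyclic.subsingleton_path z v).elim _ _
  have hpq : p = q := congrArg Subtype.val this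
  rw [← hpa, ← hqb, hpq]

/-- A geodesic between two vertices. -/
theorem tb_geo28 (h : Γ.Connected) (x y : V) :
    ∃ p : ℕ → V, p 0 = x ∧ p (Γ.dist x y) = y ∧
      (∀ i, i < Γ.dist x y → Γ.Adj (p i) (p (i + 1))) ∧
      (∀ i j, i ≤ j → j ≤ Γ.dist x y → Γ.dist (p i) (p j) = j - i) := by
  obtain ⟨w, hw⟩ := h.exists_walk_length_eq_dist x y
  refine ⟨w.getVert, SimpleGraph.Walk.getVert_zero w, ?_, ?_, ?_⟩
  · rw [← hw]
    exact SimpleGraph.Walk.getVert_length w
  · intro i hi
    exact SimpleGraph.Walk.adj_getVert_succ w (by rw [hw]; exact hi)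
  · have step : ∀ i k, i + k ≤ Γ.dist x y → Γ.dist (w.getVert i) (w.getVert (i + k)) ≤ k := by
      intro i k
      induction k with
      | zero => intro _; simp
      | succ k ih =>
        intro hk
        have h1 := ih (by omega)
        have h2 : Γ.Adj (w.getVert (i + k)) (w.getVert (i + k + 1)) :=
          SimpleGraph.Walk.adj_getVert_succ w (by rw [hw]; omega)
        have h3 := SimpleGraph.dist_eq_one_iff_adj.2 h2
        have h4 := h.dist_triangle (u := w.getVert i) (v := w.getVert (i + k))
          (w := w.getVert (i + k + 1))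
        have e : i + (k + 1) = i + k + 1 := rfl
        rw [e]
        omega
    intro i j hij hj
    obtain ⟨k, rfl⟩ := Nat.exists_eq_add_of_le hij
    have h1 := step i k hj
    have h2 := step 0 i (by omega)
    have h3 := step (i + k) (Γ.dist x y - (i + k)) (by omega)
    rw [Nat.add_sub_cancel' hj, ← hw, SimpleGraph.Walk.getVert_length, hw] at h3
    rw [Nat.zero_add, SimpleGraph.Walk.getVert_zero] at h2
    have h4 := h.dist_triangle (u := x) (v := w.getVert i) (w := y)
    have h5 := h.dist_triangle (u := w.getVert i) (v := w.getVert (i + k)) (w := y)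
    omega

/-- The gate of `z` on a geodesic. -/
theorem tb_gate28 (h : Γ.IsTree) (z : V) (p : ℕ → V) (N : ℕ)
    (hadj : ∀ i, i < N → Γ.Adj (p i) (p (i + 1)))
    (hd : ∀ i j, i ≤ j → j ≤ N → Γ.dist (p i) (p j) = j - i) :
    ∀ n, n ≤ N → ∃ s, s ≤ n ∧ Γ.dist z (p 0) = Γ.dist z (p s) + s ∧
      Γ.dist z (p n) = Γ.dist z (p s) + (n - s) ∧
      (s < n → ∃ m, m + 1 = n ∧ Γ.dist z (p m) < Γ.dist z (p n)) := by
  intro n
  induction n with
  | zero =>
    intro _
    exact ⟨0, le_refl _, by omega, by omega, fun h => absurd h (lt_irrefl _)⟩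
  | succ n ih =>
    intro hn
    obtain ⟨s, hs, h1, h2, h3⟩ := ih (by omega)
    have hA := hadj n (by omega)
    have hstep := h.dist_eq_dist_add_one_of_adj z hA
    rcases Nat.lt_or_ge s n with hlt | hge
    · obtain ⟨m, hm, hlt'⟩ := h3 hlt
      clear h3
      subst hm
      have hup : Γ.dist z (p (m + 1 + 1)) = Γ.dist z (p (m + 1)) + 1 := by
        rcases hstep with hs1 | hs1
        · exfalso
          have : p m = p (m + 1 + 1) := tb_parent28 h (z := z) (v := p (m + 1))
            (hadj m (by omega)) hA.symm hlt' (by omega)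
          have h5 := hd m (m + 1 + 1) (by omega) hn
          rw [← this, SimpleGraph.dist_self] at h5
          omega
        · exact hs1
      refine ⟨s, by omega, h1, by omega, fun _ => ⟨m + 1, rfl, by omega⟩⟩
    · have hsn : s = n := le_antisymm hs hge
      subst hsn
      rcases hstep with hs1 | hs1
      · refine ⟨s + 1, le_refl _, by omega, by omega, fun h => absurd h (lt_irrefl _)⟩
      · refine ⟨s, by omega, h1, by omega, fun _ => ⟨s, rfl, by omega⟩⟩

theorem TB : TB_stmt.{u} := by
  intro V Γ h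
  have hc := h.connected
  refine ⟨fun x y => hc.dist_eq_zero_iff, fun x y => SimpleGraph.dist_comm,
    fun x y z => hc.dist_triangle, ?_, ?_, ?_⟩
  · intro x y k hk
    obtain ⟨p, p0, pn, _, hd⟩ := tb_geo28 hc x y
    refine ⟨p k, ?_, ?_⟩
    · have := hd 0 k (by omega) hk
      rw [p0] at this
      omega
    · have := hd k _ hk (le_refl _)
      rw [pn] at this
      exact this
  · intro x y z w
    obtain ⟨p, p0, pn, hadj, hd⟩ := tb_geo28 hc x y
    obtain ⟨s, hs, a1, a2, -⟩ := tb_gate28 h z p _ hadj hd _ (le_refl _)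
    obtain ⟨t, ht, b1, b2, -⟩ := tb_gate28 h w p _ hadj hd _ (le_refl _)
    rw [p0] at a1 b1
    rw [pn] at a2 b2
    have t1 := hc.dist_triangle (u := z) (v := p s) (w := w)
    have t2 := hc.dist_triangle (u := p s) (v := p t) (w := w)
    have c1 : Γ.dist x z = Γ.dist z x := SimpleGraph.dist_comm
    have c2 : Γ.dist y w = Γ.dist w y := SimpleGraph.dist_comm
    have c3 : Γ.dist x w = Γ.dist w x := SimpleGraph.dist_comm
    have c4 : Γ.dist y z = Γ.dist z y := SimpleGraph.dist_comm
    have c5 : Γ.dist (p t) w = Γ.dist w (p t) := SimpleGraph.dist_comm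
    rcases le_total s t with hst | hst
    · have h5 := hd s t hst ht
      apply le_trans _ (le_max_right _ _)
      omega
    · have h5 := hd t s hst hs
      have c6 : Γ.dist (p s) (p t) = Γ.dist (p t) (p s) := SimpleGraph.dist_comm
      apply le_trans _ (le_max_left _ _)
      omega
  · intro x y z
    have key : ∀ {a b : V} (q : Γ.Walk a b), Even (Γ.dist z a + Γ.dist z b + q.length) := by
      intro a b q
      induction q with
      | nil => rw [SimpleGraph.Walk.length_nil]; exact ⟨Γ.dist z _, by ring⟩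
      | cons hab q ih =>
        rw [SimpleGraph.Walk.length_cons]
        have h1 := h.dist_eq_dist_add_one_of_adj z hab
        rw [Nat.even_iff] at ih ⊢
        omega
    obtain ⟨q, hq⟩ := hc.exists_walk_length_eq_dist x y
    have h1 := key q
    rw [hq] at h1
    have c1 : Γ.dist z x = Γ.dist x z := SimpleGraph.dist_comm
    have c2 : Γ.dist z y = Γ.dist y z := SimpleGraph.dist_comm
    rw [c1, c2] at h1
    rw [Nat.even_iff] at h1 ⊢
    omega

end Pool.Agent.helper80.EN
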